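import Pool.Agent.N944.BH.Base

/-!
# Lower bound for `B(p q^b)`, `b ≥ 3`
-/

set_option autoImplicit false

namespace Pool.Agent.N944.BH

open Polynomial Finset

theorem coeff_mul_expand_special {q s : ℕ} (hs : s < q) (A G : ℤ[X])
    (hA : ∀ k, q + s ≤ k → A.coeff k = 0) (m : ℕ) :
    (A * expand ℤ q G).coeff (q * m + s) = A.coeff s * G.coeff m := by
  have hq : 0 < q := by omega
  rw [coeff_mul, Finset.sum_eq_single (s, q * m)]
  · rw [coeff_expand hq, if_pos (dvd_mul_right _ _), Nat.mul_div_cancel_left _ hq]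
  · rintro ⟨i, j⟩ hij hne
    rw [HasAntidiagonal.mem_antidiagonal] at hij
    dsimp only at hij ⊢
    rw [coeff_expand hq]
    split_ifs with hd
    · obtain ⟨c, rfl⟩ := hd
      rcases lt_trichotomy c m with h | h | h
      · rw [hA i, zero_mul]
        have : q * (c + 1) ≤ q * m := Nat.mul_le_mul_left q h
        rw [mul_add] at this
        omega
      · exfalso; apply hne
        subst h
        congr 1
        omega
      · exfalso
        have : q * (m + 1) ≤ q * c := Nat.mul_le_mul_left q h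
        rw [mul_add] at this
        omega
    · rw [mul_zero]
  · intro h
    exfalso; apply h
    rw [HasAntidiagonal.mem_antidiagonal]
    dsimp only
    omega

theorem geomCoeff' (q k : ℕ) :
    (∑ i ∈ range q, (X : ℤ[X]) ^ i).coeff k = if k < q then 1 else 0 := by
  simp [coeff_X_pow]

theorem T_coeff (p q k : ℕ) :
    ((∑ i ∈ range p, (X : ℤ[X]) ^ i) * (∑ i ∈ range q, (X : ℤ[X]) ^ i)).coeff k
      = ∑ i ∈ range p, if i ≤ k ∧ k - i < q then 1 else 0 := by
  rw [Finset.sum_mul, finsetSum_coeff]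
  apply Finset.sum_congr rfl
  intro i _
  rw [coeff_X_pow_mul', geomCoeff']
  by_cases h : i ≤ k
  · simp [h]
  · simp [h]

/-- the auxiliary polynomial -/
noncomputable def V (p q : ℕ) : ℤ[X] :=
  (∑ i ∈ range q, (X : ℤ[X]) ^ (p * i)) * (∑ j ∈ range p, C ((j : ℤ) + 1) * X ^ (q * j))

theorem V_coeff (p q m : ℕ) :
    (V p q).coeff m = ∑ i ∈ range q, ∑ j ∈ range p, if m = p * i + q * j then (j : ℤ) + 1 else 0 := by
  unfold V
  rw [Finset.sum_mul, finsetSum_coeff]
  apply Finset.sum_congr rfl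
  intro i _
  rw [Finset.mul_sum, finsetSum_coeff]
  apply Finset.sum_congr rfl
  intro j _
  rw [show (X : ℤ[X]) ^ (p * i) * (C ((j : ℤ) + 1) * X ^ (q * j))
    = C ((j : ℤ) + 1) * X ^ (p * i + q * j) by rw [pow_add]; ring, coeff_C_mul, coeff_X_pow]
  simp

theorem sum_arith (p : ℕ) (y : ℤ[X]) :
    (∑ j ∈ range p, C ((j : ℤ) + 1) * y ^ j) * (1 - y) ^ 2
      = 1 - C ((p : ℤ) + 1) * y ^ p + C (p : ℤ) * y ^ (p + 1) := by
  induction p with
  | zero => simp
  | succ p ih =>
    rw [Finset.sum_range_succ, add_mul, ih]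
    push_cast
    simp only [map_add, map_one]
    ring

theorem G_identity {p q : ℕ} (hp : p.Prime) (hq : q.Prime) (hpq : p < q) :
    (cyclotomic (p * q) ℤ * cyclotomic (q ^ 2) ℤ) * ((1 - X ^ p) * (1 - X ^ q) ^ 2)
      = (1 - X) * (1 - X ^ (p * q)) * (1 - X ^ (q ^ 2)) := by
  have := Fact.mk hp
  have := Fact.mk hq
  have hnd : ¬ q ∣ p := fun h => by
    have := Nat.le_of_dvd hp.pos h
    omega
  have h1 : expand ℤ q (cyclotomic p ℤ) = cyclotomic (p * q) ℤ * cyclotomic p ℤ :=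
    cyclotomic_expand_eq_cyclotomic_mul hq hnd ℤ
  have h2 : cyclotomic (q ^ 2) ℤ = expand ℤ q (cyclotomic q ℤ) := by
    rw [cyclotomic_expand_eq_cyclotomic hq dvd_rfl ℤ, sq]
  have h3 : cyclotomic p ℤ * (X - 1) = X ^ p - 1 := by
    rw [cyclotomic_prime]; exact geom_sum_mul _ _
  have h4 : cyclotomic q ℤ * (X - 1) = X ^ q - 1 := by
    rw [cyclotomic_prime]; exact geom_sum_mul _ _
  have h5 : expand ℤ q (cyclotomic p ℤ) * (X ^ q - 1) = X ^ (p * q) - 1 := by
    have := congrArg (expand ℤ q) h3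
    simpa [← pow_mul, mul_comm] using this
  have h6 : expand ℤ q (cyclotomic q ℤ) * (X ^ q - 1) = X ^ (q ^ 2) - 1 := by
    have := congrArg (expand ℤ q) h4
    simpa [← pow_mul, sq] using this
  calc _ = ((cyclotomic (p * q) ℤ * cyclotomic p ℤ) * (X ^ q - 1)) *
        (expand ℤ q (cyclotomic q ℤ) * (X ^ q - 1)) * (1 - X) := by
        rw [h2, show (1 : ℤ[X]) - X ^ p = -(cyclotomic p ℤ * (X - 1)) by rw [h3]; ring]
        ring
    _ = (X ^ (p * q) - 1) * (X ^ (q ^ 2) - 1) * (1 - X) := by rw [← h1, h5, h6]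
    _ = _ := by ring

theorem G_coeff {p q : ℕ} (hp : p.Prime) (hq : q.Prime) (hpq : p < q) {m : ℕ} (hm : m < p * q) :
    (cyclotomic (p * q) ℤ * cyclotomic (q ^ 2) ℤ).coeff m = ((1 - X) * V p q).coeff m := by
  have hU : IsCoprime ((X : ℤ[X]) ^ (p * q)) ((1 - X ^ p) * (1 - X ^ q) ^ 2) := by
    have h : ∀ n : ℕ, 0 < n → IsCoprime (X : ℤ[X]) (1 - X ^ n) := by
      intro n hn
      refine ⟨X ^ (n - 1), 1, ?_⟩
      rw [← pow_succ, Nat.sub_add_cancel hn]
      ring
    exact IsCoprime.pow_left (IsCoprime.mul_right (h p hp.pos) ((h q hq.pos).pow_right))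
  have hV : (V p q) * ((1 - X ^ p) * (1 - X ^ q) ^ 2)
      = (1 - X ^ (p * q)) * (1 - C ((p : ℤ) + 1) * X ^ (p * q) + C (p : ℤ) * X ^ (p * q + q)) := by
    have e1 : (∑ i ∈ range q, (X : ℤ[X]) ^ (p * i)) * (1 - X ^ p) = 1 - X ^ (p * q) := by
      have := geom_sum_mul ((X : ℤ[X]) ^ p) q
      simp_rw [← pow_mul] at this
      linear_combination -this
    have e2 := sum_arith p ((X : ℤ[X]) ^ q)
    simp_rw [← pow_mul] at e2
    rw [show q * (p + 1) = p * q + q by ring, mul_comm q p] at e2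
    unfold V
    linear_combination (∑ j ∈ range p, C ((j : ℤ) + 1) * (X : ℤ[X]) ^ (q * j)) * (1 - X ^ q) ^ 2 * e1
      + (1 - X ^ (p * q)) * e2
  have hdvd : (X : ℤ[X]) ^ (p * q) ∣
      (cyclotomic (p * q) ℤ * cyclotomic (q ^ 2) ℤ) - (1 - X) * V p q := by
    apply hU.dvd_of_dvd_mul_right
    obtain ⟨d, hd⟩ : ∃ d, q ^ 2 = p * q + d := ⟨q ^ 2 - p * q, by
      have : p * q ≤ q ^ 2 := by rw [sq]; exact Nat.mul_le_mul_right q hpq.le
      omega⟩
    refine ⟨(1 - X) * (1 - X ^ (p * q)) * (C ((p : ℤ) + 1) - C (p : ℤ) * X ^ q - X ^ d), ?_⟩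
    rw [sub_mul, G_identity hp hq hpq, mul_assoc (1 - X) (V p q), hV, hd, pow_add, pow_add]
    ring
  rw [X_pow_dvd_iff] at hdvd
  have := hdvd m hm
  rw [coeff_sub, sub_eq_zero] at this
  exact this

theorem V_coeff_mul {p q : ℕ} (hp : p.Prime) (hq : q.Prime) (hpq : p < q) {j : ℕ} (hj : j < p) :
    (V p q).coeff (q * j) = j + 1 := by
  rw [V_coeff, Finset.sum_eq_single 0, Finset.sum_eq_single j]
  · simp
  · intro b _ hb
    rw [if_neg]
    intro h
    apply hb
    have : q * j = q * b := by omega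
    exact (Nat.eq_of_mul_eq_mul_left hq.pos this).symm
  · intro h; exact absurd (Finset.mem_range.mpr hj) h
  · intro i hi hi0
    rw [Finset.mem_range] at hi
    apply Finset.sum_eq_zero
    intro b _
    rw [if_neg]
    intro h
    have hd : q ∣ p * i := by
      have h1 : q ∣ p * i + q * b := ⟨j, h.symm⟩
      exact (Nat.dvd_add_left (dvd_mul_right q b)).mp h1
    rcases hq.dvd_mul.mp hd with h1 | h1
    · have := Nat.le_of_dvd hp.pos h1; omega
    · have := Nat.le_of_dvd (Nat.pos_of_ne_zero hi0) h1; omega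
  · intro h; exact absurd (Finset.mem_range.mpr hq.pos) h

theorem V_coeff_pred {p q r : ℕ} (hp : p.Prime) (hq : q.Prime) (hpq : p < q) (hr : r < p)
    (h1 : q * r % p = 1) {m : ℕ} (hm : m + 1 = q * (r - 1)) : (V p q).coeff m = 0 := by
  rw [V_coeff]
  apply Finset.sum_eq_zero
  intro i _
  apply Finset.sum_eq_zero
  intro j hj
  rw [Finset.mem_range] at hj
  rw [if_neg]
  intro h
  have hr0 : 1 ≤ r := by
    rcases Nat.eq_zero_or_pos r with h0 | h0
    · subst h0; simp at h1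
    · exact h0
  obtain ⟨r', rfl⟩ : ∃ r', r = r' + 1 := ⟨r - 1, by omega⟩
  rw [Nat.add_sub_cancel] at hm
  -- q * (j + 1) = q * r - 1 - p * i is divisible by p
  have hd : p ∣ q * (j + 1) := by
    have e : q * (j + 1) + p * i + 1 = q * (r' + 1) := by
      rw [mul_add, mul_add]; omega
    have e2 := Nat.div_add_mod (q * (r' + 1)) p
    rw [h1] at e2
    have e3 : q * (j + 1) + p * i = p * (q * (r' + 1) / p) := by omega
    have : p ∣ q * (j + 1) + p * i := ⟨_, e3⟩
    exact (Nat.dvd_add_left (dvd_mul_right p i)).mp this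
  rcases hp.dvd_mul.mp hd with h2 | h2
  · have := (Nat.prime_dvd_prime_iff_eq hp hq).mp h2
    omega
  · have := Nat.le_of_dvd (Nat.succ_pos j) h2
    have hjp : j + 1 = p := by omega
    have h3 : r' ≤ j := by omega
    have h4 : q * r' ≤ q * j := Nat.mul_le_mul_left q h3
    omega

theorem V_coeff_succ {p q r : ℕ} (hp : p.Prime) (hq : q.Prime) (hpq : p < q) (hr : r < p)
    (h1 : q * r % p = 1) : (V p q).coeff (q * (p - 1) + 1) = r := by
  have hr0 : 1 ≤ r := by
    rcases Nat.eq_zero_or_pos r with h0 | h0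
    · subst h0; simp at h1
    · exact h0
  have hp2 := hp.two_le
  -- p * s + 1 = q * r
  obtain ⟨s, hs⟩ : ∃ s, q * r = p * s + 1 := ⟨q * r / p, by
    have := Nat.div_add_mod (q * r) p
    rw [h1] at this
    exact this.symm⟩
  have hsq : s ≤ q := by
    by_contra hcon
    have a1 : p * (q + 1) ≤ p * s := Nat.mul_le_mul_left p (by omega)
    have a2 : q * r ≤ q * p := Nat.mul_le_mul_left q hr.le
    rw [mul_add, mul_comm p q] at a1
    omega
  have hs1 : 1 ≤ s := by
    rcases Nat.eq_zero_or_pos s with h0 | h0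
    · subst h0
      have : q * 1 ≤ q * r := Nat.mul_le_mul_left q hr0
      have := hq.two_le
      omega
    · exact h0
  obtain ⟨r', rfl⟩ : ∃ r', r = r' + 1 := ⟨r - 1, by omega⟩
  obtain ⟨p', rfl⟩ : ∃ p', p = p' + 1 := ⟨p - 1, by omega⟩
  rw [Nat.add_sub_cancel]
  -- the solution i = q - s, j = r'
  have key : q * p' + 1 = (p' + 1) * (q - s) + q * r' := by
    obtain ⟨t, rfl⟩ : ∃ t, q = s + t := ⟨q - s, by omega⟩
    rw [Nat.add_sub_cancel_left]
    nlinarith
  rw [V_coeff, Finset.sum_eq_single (q - s), Finset.sum_eq_single r']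
  · rw [if_pos key]; push_cast; ring
  · intro b _ hb
    rw [if_neg]
    intro h
    apply hb
    have : q * r' = q * b := by omega
    exact (Nat.eq_of_mul_eq_mul_left hq.pos this).symm
  · intro h; exact absurd (Finset.mem_range.mpr (by omega)) h
  · intro i hi hi0
    rw [Finset.mem_range] at hi
    apply Finset.sum_eq_zero
    intro b hb
    rw [Finset.mem_range] at hb
    rw [if_neg]
    intro h
    apply hi0
    -- (p'+1) i + q b = (p'+1)(q-s) + q r'  → q ∣ (p'+1)(i - (q-s))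
    have e : (p' + 1) * i + q * b = (p' + 1) * (q - s) + q * r' := by omega
    have e' : ((p' + 1 : ℕ) : ℤ) * ((i : ℤ) - ((q - s : ℕ) : ℤ)) = (q : ℤ) * ((r' : ℤ) - b) := by
      have := congrArg (Nat.cast : ℕ → ℤ) e
      push_cast at this ⊢
      linarith
    have hd : (q : ℤ) ∣ (i : ℤ) - ((q - s : ℕ) : ℤ) := by
      have h2 : (q : ℤ) ∣ ((p' + 1 : ℕ) : ℤ) * ((i : ℤ) - ((q - s : ℕ) : ℤ)) := ⟨_, e'⟩
      rcases (Nat.prime_iff_prime_int.mp hq).dvd_or_dvd h2 with h3 | h3
      · exfalso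
        have := Nat.le_of_dvd hp.pos (Int.natCast_dvd_natCast.mp h3)
        omega
      · exact h3
    obtain ⟨c, hc⟩ := hd
    have hc0 : c = 0 := by
      have b1 : (i : ℤ) - ((q - s : ℕ) : ℤ) < q := by omega
      have b2 : -(q : ℤ) < (i : ℤ) - ((q - s : ℕ) : ℤ) := by omega
      rw [hc] at b1 b2
      have hq0 : (0 : ℤ) < q := by exact_mod_cast hq.pos
      have c1 : c < 1 := by nlinarith
      have c2 : -1 < c := by nlinarith
      omega
    rw [hc0, mul_zero] at hc
    omega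
  · intro h; exact absurd (Finset.mem_range.mpr (by omega)) h

/-- The two coefficients of `Φ_{pq} Φ_{q²}`. -/
theorem G_coeff_one {p q r : ℕ} (hp : p.Prime) (hq : q.Prime) (hpq : p < q) (hr : r < p)
    (h1 : q * r % p = 1) :
    (cyclotomic (p * q) ℤ * cyclotomic (q ^ 2) ℤ).coeff (q * (r - 1)) = r := by
  have hr0 : 1 ≤ r := by
    rcases Nat.eq_zero_or_pos r with h0 | h0
    · subst h0; simp at h1
    · exact h0
  have hlt : q * (r - 1) < p * q := by
    rw [mul_comm p q]
    exact Nat.mul_lt_mul_of_pos_left (by omega) hq.pos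
  rw [G_coeff hp hq hpq hlt, show (1 - X) * V p q = V p q - X * V p q by ring, coeff_sub,
    V_coeff_mul hp hq hpq (j := r - 1) (by omega)]
  rcases Nat.eq_zero_or_pos (q * (r - 1)) with h0 | h0
  · rw [h0]
    have : r - 1 = 0 := by
      rcases Nat.mul_eq_zero.mp h0 with h2 | h2
      · have := hq.pos; omega
      · exact h2
    have : r = 1 := by omega
    subst this
    simp
  · obtain ⟨m, hm⟩ : ∃ m, m + 1 = q * (r - 1) := ⟨q * (r - 1) - 1, by omega⟩
    rw [← hm, coeff_X_mul, V_coeff_pred hp hq hpq hr h1 hm]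
    push_cast [Nat.cast_sub hr0]
    ring

theorem G_coeff_two {p q r : ℕ} (hp : p.Prime) (hq : q.Prime) (hpq : p < q) (hr : r < p)
    (h1 : q * r % p = 1) :
    (cyclotomic (p * q) ℤ * cyclotomic (q ^ 2) ℤ).coeff (q * (p - 1) + 1) = (r : ℤ) - p := by
  have hp2 := hp.two_le
  have hlt : q * (p - 1) + 1 < p * q := by
    obtain ⟨p', rfl⟩ : ∃ p', p = p' + 1 := ⟨p - 1, by omega⟩
    rw [Nat.add_sub_cancel]
    have := hq.two_le
    nlinarith
  rw [G_coeff hp hq hpq hlt, show (1 - X) * V p q = V p q - X * V p q by ring, coeff_sub,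
    V_coeff_succ hp hq hpq hr h1, coeff_X_mul, V_coeff_mul hp hq hpq (j := p - 1) (by omega)]
  push_cast [Nat.cast_sub hp.one_le]
  ring

/-- The witness `Φ_p Φ_q Φ_{pq²} Φ_{q³}`. -/
noncomputable def F (p q : ℕ) : ℤ[X] :=
  cyclotomic p ℤ * cyclotomic q ℤ * (cyclotomic (p * q * q) ℤ * cyclotomic (q ^ 3) ℤ)

theorem F_coeff {p q : ℕ} (hp : p.Prime) (hq : q.Prime) (hpq : p < q) (m : ℕ) :
    (F p q).coeff (q * m + (p - 1))
      = p * (cyclotomic (p * q) ℤ * cyclotomic (q ^ 2) ℤ).coeff m := by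
  have := Fact.mk hp
  have := Fact.mk hq
  have hp1 := hp.one_le
  have hF : F p q = ((∑ i ∈ range p, (X : ℤ[X]) ^ i) * (∑ i ∈ range q, (X : ℤ[X]) ^ i)) *
      expand ℤ q (cyclotomic (p * q) ℤ * cyclotomic (q ^ 2) ℤ) := by
    unfold F
    rw [map_mul, cyclotomic_expand_eq_cyclotomic hq (dvd_mul_left q p) ℤ,
      cyclotomic_expand_eq_cyclotomic hq (dvd_pow_self q two_ne_zero) ℤ, ← pow_succ,
      cyclotomic_prime ℤ p, cyclotomic_prime ℤ q]
  rw [hF, coeff_mul_expand_special (by omega), T_coeff]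
  · congr 1
    rw [Finset.sum_congr rfl (g := fun _ => (1 : ℤ))]
    · simp
    · intro i hi
      rw [Finset.mem_range] at hi
      rw [if_pos (by omega)]
  · intro k hk
    rw [T_coeff]
    apply Finset.sum_eq_zero
    intro i hi
    rw [Finset.mem_range] at hi
    rw [if_neg (by omega)]

theorem F_dvd {p q b : ℕ} (hp : p.Prime) (hq : q.Prime) (hpq : p < q) (hb : 3 ≤ b) :
    F p q ∣ X ^ (p * q ^ b) - 1 := by
  have hpos : 0 < p * q ^ b := Nat.mul_pos hp.pos (pow_pos hq.pos b)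
  rw [← prod_cyclotomic_eq_X_pow_sub_one hpos ℤ]
  have hp2 := hp.two_le
  have hq2 := hq.two_le
  have a1 : q < q ^ 3 := by
    calc q = q ^ 1 := (pow_one q).symm
      _ < q ^ 3 := Nat.pow_lt_pow_right (by omega) (by omega)
  have a2 : q < p * q * q := by
    have := Nat.mul_le_mul (Nat.mul_le_mul hp2 hq2) (le_refl q)
    omega
  have a3 : p * q * q ≠ q ^ 3 := by
    intro h
    have : (p * (q * q)) = q * (q * q) := by rw [← mul_assoc, h]; ring
    have := Nat.eq_of_mul_eq_mul_right (by positivity) this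
    omega
  have hprod : F p q = ∏ i ∈ ({p, q, p * q * q, q ^ 3} : Finset ℕ), cyclotomic i ℤ := by
    rw [Finset.prod_insert, Finset.prod_insert, Finset.prod_insert, Finset.prod_singleton]
    · unfold F; ring
    · simpa using a3
    · simp only [Finset.mem_insert, Finset.mem_singleton]; omega
    · simp only [Finset.mem_insert, Finset.mem_singleton]; omega
  rw [hprod]
  apply Finset.prod_dvd_prod_of_subset
  intro i hi
  rw [Nat.mem_divisors]
  refine ⟨?_, hpos.ne'⟩
  simp only [Finset.mem_insert, Finset.mem_singleton] at hi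
  rcases hi with rfl | rfl | rfl | rfl
  · exact dvd_mul_right _ _
  · exact (dvd_pow_self _ (by omega)).mul_left _
  · rw [mul_assoc, ← sq]
    exact mul_dvd_mul_left _ (pow_dvd_pow _ (by omega))
  · exact (pow_dvd_pow _ hb).mul_left _

theorem lower {p q r b : ℕ} (hp : p.Prime) (hq : q.Prime) (hpq : p < q) (hr : r < p)
    (h1 : q * r % p = 1) (hb : 3 ≤ b) :
    p * r ≤ B (p * q ^ b) ∧ p * (p - r) ≤ B (p * q ^ b) := by
  have hpos : 0 < p * q ^ b := Nat.mul_pos hp.pos (pow_pos hq.pos b)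
  have hB := le_B hpos (F_dvd hp hq hpq hb)
  constructor
  · refine le_trans ?_ hB
    refine le_trans ?_ (le_height (F p q) (q * (q * (r - 1)) + (p - 1)))
    rw [F_coeff hp hq hpq, G_coeff_one hp hq hpq hr h1]
    rw [Int.natAbs_mul, Int.natAbs_natCast, Int.natAbs_natCast]
  · refine le_trans ?_ hB
    refine le_trans ?_ (le_height (F p q) (q * (q * (p - 1) + 1) + (p - 1)))
    rw [F_coeff hp hq hpq, G_coeff_two hp hq hpq hr h1]
    rw [Int.natAbs_mul, Int.natAbs_natCast]
    apply Nat.mul_le_mul_left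
    omega

theorem above {p q b : ℕ} (hp : p.Prime) (hp2 : p ≠ 2) (hq : q.Prime) (hpq : p < q) (hb : 3 ≤ b) :
    p * (p + 1) ≤ 2 * B (p * q ^ b) := by
  have hcop : Nat.Coprime q p := (Nat.coprime_primes hq hp).mpr (by omega)
  obtain ⟨m, hr, h1⟩ := Nat.exists_mul_mod_eq_one_of_coprime hcop hp.one_lt
  obtain ⟨hA, hB⟩ := lower hp hq hpq hr h1 hb
  have hodd := hp.odd_of_ne_two hp2
  obtain ⟨c, hc⟩ := hodd
  rcases Nat.lt_or_ge c m with h | h
  · calc p * (p + 1) ≤ p * (2 * m) := Nat.mul_le_mul_left p (by omega)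
      _ = 2 * (p * m) := by ring
      _ ≤ _ := Nat.mul_le_mul_left 2 hA
  · calc p * (p + 1) ≤ p * (2 * (p - m)) := Nat.mul_le_mul_left p (by omega)
      _ = 2 * (p * (p - m)) := by ring
      _ ≤ _ := Nat.mul_le_mul_left 2 hB

end Pool.Agent.N944.BH
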