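import Mathlib

/-!
# Heights of divisors of `X^n - 1`
-/

set_option autoImplicit false

namespace Pool.Agent.N944.BH

open Polynomial Finset

/-- The height of an integer polynomial: the largest absolute value of a coefficient. -/
def height (f : ℤ[X]) : ℕ := f.support.sup fun k => (f.coeff k).natAbs

/-- `B n`: the largest height of a divisor of `X^n - 1` in `ℤ[X]`. -/
noncomputable def B (n : ℕ) : ℕ := sSup {h | ∃ f : ℤ[X], f ∣ X ^ n - 1 ∧ height f = h}

theorem height_le_iff (f : ℤ[X]) (h : ℕ) : height f ≤ h ↔ ∀ k, (f.coeff k).natAbs ≤ h := by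
  unfold height
  rw [Finset.sup_le_iff]
  refine ⟨fun H k => ?_, fun H k _ => H k⟩
  by_cases hk : k ∈ f.support
  · exact H k hk
  · rw [notMem_support_iff.mp hk]; simp

theorem le_height (f : ℤ[X]) (k : ℕ) : (f.coeff k).natAbs ≤ height f :=
  (height_le_iff f _).mp le_rfl k

theorem height_congr {f g : ℤ[X]} (h : ∀ k, (f.coeff k).natAbs = (g.coeff k).natAbs) :
    height f = height g := by
  apply le_antisymm
  · rw [height_le_iff]; intro k; rw [h]; exact le_height g k
  · rw [height_le_iff]; intro k; rw [← h]; exact le_height f k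

theorem height_associated {f g : ℤ[X]} (h : Associated f g) : height f = height g := by
  obtain ⟨u, hu⟩ := h
  obtain ⟨r, hr, hru⟩ := Polynomial.isUnit_iff.mp u.isUnit
  apply height_congr
  intro k
  rw [← hu, ← hru, mul_comm f (C r), coeff_C_mul, Int.natAbs_mul, Int.isUnit_iff_natAbs_eq.mp hr, one_mul]

/-- A divisor of a product of primes is associated to a subproduct. -/
theorem dvd_prod_primes {ι : Type*} [DecidableEq ι] {R : Type*} [CommRing R] [IsDomain R]
    (P : ι → R) (s : Finset ι) (hP : ∀ i ∈ s, Prime (P i)) :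
    ∀ f : R, f ∣ ∏ i ∈ s, P i → ∃ t ⊆ s, Associated f (∏ i ∈ t, P i) := by
  induction s using Finset.induction_on with
  | empty =>
    intro f hf
    refine ⟨∅, subset_rfl, ?_⟩
    rw [Finset.prod_empty] at hf ⊢
    exact associated_one_iff_isUnit.mpr (isUnit_of_dvd_one hf)
  | insert a s ha ih =>
    intro f hf
    have hPa : Prime (P a) := hP a (Finset.mem_insert_self a s)
    have ih' := ih (fun i hi => hP i (Finset.mem_insert_of_mem hi))
    rw [Finset.prod_insert ha] at hf
    obtain ⟨h, hh⟩ := hf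
    have hdvd : P a ∣ f * h := ⟨_, hh.symm⟩
    rcases hPa.dvd_or_dvd hdvd with h1 | h1
    · obtain ⟨g, rfl⟩ := h1
      have : ∏ i ∈ s, P i = g * h := by
        apply mul_left_cancel₀ hPa.ne_zero
        rw [hh]; ring
      obtain ⟨t, ht, hgt⟩ := ih' g ⟨h, this⟩
      refine ⟨insert a t, Finset.insert_subset_insert a ht, ?_⟩
      rw [Finset.prod_insert (fun hat => ha (ht hat))]
      exact hgt.mul_left (P a)
    · obtain ⟨g, rfl⟩ := h1
      have : ∏ i ∈ s, P i = f * g := by
        apply mul_left_cancel₀ hPa.ne_zero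
        rw [hh]; ring
      obtain ⟨t, ht, hft⟩ := ih' f ⟨g, this⟩
      exact ⟨t, ht.trans (Finset.subset_insert a s), hft⟩

theorem cyclotomic_prime' {n : ℕ} (hn : 0 < n) : Prime (cyclotomic n ℤ) :=
  (cyclotomic.irreducible hn).prime

/-- The set of heights of divisors of `X^n - 1` is bounded. -/
theorem bddAbove {n : ℕ} (hn : 0 < n) :
    BddAbove {h | ∃ f : ℤ[X], f ∣ X ^ n - 1 ∧ height f = h} := by
  classical
  refine ⟨n.divisors.powerset.sup fun t => height (∏ i ∈ t, cyclotomic i ℤ), ?_⟩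
  rintro h ⟨f, hf, rfl⟩
  rw [← prod_cyclotomic_eq_X_pow_sub_one hn ℤ] at hf
  obtain ⟨t, ht, hft⟩ := dvd_prod_primes (fun i => cyclotomic i ℤ) n.divisors
    (fun i hi => cyclotomic_prime' (Nat.pos_of_mem_divisors hi)) f hf
  rw [height_associated hft]
  exact Finset.le_sup (f := fun t => height (∏ i ∈ t, cyclotomic i ℤ)) (Finset.mem_powerset.mpr ht)

theorem le_B {n : ℕ} (hn : 0 < n) {f : ℤ[X]} (hf : f ∣ X ^ n - 1) : height f ≤ B n :=
  le_csSup (bddAbove hn) ⟨f, hf, rfl⟩

theorem B_le {n h : ℕ} (H : ∀ f : ℤ[X], f ∣ X ^ n - 1 → height f ≤ h) : B n ≤ h := by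
  have hne : {h | ∃ f : ℤ[X], f ∣ X ^ n - 1 ∧ height f = h}.Nonempty :=
    ⟨height 1, 1, one_dvd _, rfl⟩
  apply csSup_le hne
  rintro _ ⟨f, hf, rfl⟩
  exact H f hf

/-- `B n` is attained. -/
theorem B_mem {n : ℕ} (hn : 0 < n) : ∃ f : ℤ[X], f ∣ X ^ n - 1 ∧ height f = B n := by
  have hne : {h | ∃ f : ℤ[X], f ∣ X ^ n - 1 ∧ height f = h}.Nonempty :=
    ⟨height 1, 1, one_dvd _, rfl⟩
  exact Nat.sSup_mem hne (bddAbove hn)

/-- coefficients of `A * G(X^q)` when `deg A < q` -/
theorem coeff_mul_expand {q : ℕ} (hq : 0 < q) (A G : ℤ[X]) (hA : ∀ k, q ≤ k → A.coeff k = 0)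
    (m : ℕ) : (A * expand ℤ q G).coeff m = A.coeff (m % q) * G.coeff (m / q) := by
  rw [coeff_mul, Finset.sum_eq_single (m % q, q * (m / q))]
  · rw [coeff_expand hq, if_pos (dvd_mul_right _ _), Nat.mul_div_cancel_left _ hq]
  · rintro ⟨i, j⟩ hij hne
    rw [HasAntidiagonal.mem_antidiagonal] at hij
    dsimp only at hij ⊢
    rw [coeff_expand hq]
    split_ifs with hd
    · obtain ⟨c, rfl⟩ := hd
      rcases Nat.lt_or_ge i q with hi | hi
      · exfalso; apply hne
        have h1 : m % q = i := by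
          rw [← hij, Nat.add_mul_mod_self_left, Nat.mod_eq_of_lt hi]
        have h2 : m / q = c := by
          rw [← hij, Nat.add_mul_div_left _ _ hq, Nat.div_eq_of_lt hi, zero_add]
        rw [h1, h2]
      · rw [hA i hi, zero_mul]
    · rw [mul_zero]
  · intro h
    exfalso; apply h
    rw [HasAntidiagonal.mem_antidiagonal]
    exact Nat.mod_add_div m q

end Pool.Agent.N944.BH
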