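import Pool.Agent.N944.BH.Base

/-!
# `B(2 q^b) = 2`
-/

set_option autoImplicit false

namespace Pool.Agent.N944.BH

open Polynomial Finset

/-- coefficients of absolute value at most one -/
def Flat (f : ℤ[X]) : Prop := ∀ k, |f.coeff k| ≤ 1

theorem geomCoeff (q k : ℕ) :
    (∑ i ∈ range q, (X : ℤ[X]) ^ i).coeff k = if k < q then 1 else 0 := by
  simp [finsetSum_coeff, coeff_X_pow]

/-- `Φ_q` times `G(X^q)` -/
theorem flat_phi_q {q : ℕ} (hq : q.Prime) {G : ℤ[X]} (hG : Flat G) :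
    Flat (cyclotomic q ℤ * expand ℤ q G) := by
  have := Fact.mk hq
  intro m
  rw [cyclotomic_prime, coeff_mul_expand hq.pos]
  · rw [geomCoeff, if_pos (Nat.mod_lt m hq.pos), one_mul]
    exact hG _
  · intro k hk
    rw [geomCoeff, if_neg (not_lt.mpr hk)]

theorem altCoeff (q k : ℕ) :
    (∑ i ∈ range q, (-(X : ℤ[X])) ^ i).coeff k = if k < q then (-1) ^ k else 0 := by
  have h : ∀ i : ℕ, (-(X : ℤ[X])) ^ i = C ((-1) ^ i) * X ^ i := by
    intro i
    rw [neg_pow, map_pow, map_neg, map_one]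
  simp only [h, finsetSum_coeff, coeff_C_mul, coeff_X_pow]
  simp

theorem geom_mul_alt {q : ℕ} (hq : Odd q) :
    (∑ i ∈ range q, (X : ℤ[X]) ^ i) * (∑ i ∈ range q, (-(X : ℤ[X])) ^ i)
      = ∑ i ∈ range q, (X : ℤ[X]) ^ (2 * i) := by
  have h1 := geom_sum_mul (X : ℤ[X]) q
  have h2 := geom_sum_mul (-X : ℤ[X]) q
  have h3 := geom_sum_mul ((X : ℤ[X]) ^ 2) q
  rw [hq.neg_pow] at h2
  have hne : ((X : ℤ[X]) - 1) * (-X - 1) ≠ 0 := by
    apply mul_ne_zero
    · exact X_sub_C_ne_zero (1 : ℤ)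
    · intro h
      have h' := congrArg (fun p : ℤ[X] => p.coeff 0) h
      simp at h'
  apply mul_right_cancel₀ hne
  have h4 : ∑ i ∈ range q, (X : ℤ[X]) ^ (2 * i) = ∑ i ∈ range q, ((X : ℤ[X]) ^ 2) ^ i := by
    simp_rw [pow_mul]
  rw [h4]
  calc _ = ((∑ i ∈ range q, (X : ℤ[X]) ^ i) * (X - 1)) *
        ((∑ i ∈ range q, (-(X : ℤ[X])) ^ i) * (-X - 1)) := by ring
    _ = (X ^ q - 1) * (- X ^ q - 1) := by rw [h1, h2]
    _ = - ((X ^ 2) ^ q - 1) := by rw [← pow_mul, mul_comm 2 q, pow_mul]; ring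
    _ = - ((∑ i ∈ range q, ((X : ℤ[X]) ^ 2) ^ i) * (X ^ 2 - 1)) := by rw [h3]
    _ = _ := by ring

theorem two_expand {n : ℕ} (hn : ¬ 2 ∣ n) :
    expand ℤ 2 (cyclotomic n ℤ) = cyclotomic (n * 2) ℤ * cyclotomic n ℤ :=
  cyclotomic_expand_eq_cyclotomic_mul Nat.prime_two hn ℤ

theorem expand_two_q {q : ℕ} (hq : q.Prime) :
    expand ℤ 2 (cyclotomic q ℤ) = ∑ i ∈ range q, (X : ℤ[X]) ^ (2 * i) := by
  have := Fact.mk hq
  rw [cyclotomic_prime, map_sum]
  simp [pow_mul]

theorem cyclotomic_two_q {q : ℕ} (hq : q.Prime) (hq2 : q ≠ 2) :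
    cyclotomic (q * 2) ℤ = ∑ i ∈ range q, (-(X : ℤ[X])) ^ i := by
  have := Fact.mk hq
  have hodd : Odd q := hq.odd_of_ne_two hq2
  have h := two_expand (n := q) hodd.not_two_dvd_nat
  rw [expand_two_q hq, ← geom_mul_alt hodd, ← cyclotomic_prime ℤ q, mul_comm (cyclotomic (q * 2) ℤ)] at h
  exact (mul_left_cancel₀ (cyclotomic_ne_zero q ℤ) h).symm

theorem flat_phi_2q {q : ℕ} (hq : q.Prime) (hq2 : q ≠ 2) {G : ℤ[X]} (hG : Flat G) :
    Flat (cyclotomic (q * 2) ℤ * expand ℤ q G) := by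
  intro m
  rw [cyclotomic_two_q hq hq2, coeff_mul_expand hq.pos]
  · rw [altCoeff, if_pos (Nat.mod_lt m hq.pos), abs_mul, abs_pow, abs_neg, abs_one, one_pow, one_mul]
    exact hG _
  · intro k hk
    rw [altCoeff, if_neg (not_lt.mpr hk)]

theorem flat_phi_both {q : ℕ} (hq : q.Prime) (hq2 : q ≠ 2) {G : ℤ[X]} (hG : Flat G) :
    Flat (cyclotomic q ℤ * cyclotomic (q * 2) ℤ * expand ℤ q G) := by
  have hodd : Odd q := hq.odd_of_ne_two hq2
  obtain ⟨r, hr⟩ := hodd
  have hE : cyclotomic q ℤ * cyclotomic (q * 2) ℤ = ∑ i ∈ range q, (X : ℤ[X]) ^ (2 * i) := by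
    rw [← expand_two_q hq, two_expand (hq.odd_of_ne_two hq2).not_two_dvd_nat, mul_comm]
  have hsplit : ∑ i ∈ range q, (X : ℤ[X]) ^ (2 * i)
      = ∑ i ∈ range (r + 1), (X : ℤ[X]) ^ (2 * i)
        + X ^ q * ∑ i ∈ range r, (X : ℤ[X]) ^ (2 * i + 1) := by
    rw [show q = (r + 1) + r by omega, Finset.sum_range_add, Finset.mul_sum]
    congr 1
    apply Finset.sum_congr rfl
    intro i _
    rw [← pow_add]
    congr 1
    omega
  intro m
  have hX : (X : ℤ[X]) ^ q = expand ℤ q X := by simp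
  have hre : cyclotomic q ℤ * cyclotomic (q * 2) ℤ * expand ℤ q G
      = (∑ i ∈ range (r + 1), (X : ℤ[X]) ^ (2 * i)) * expand ℤ q G
        + (∑ i ∈ range r, (X : ℤ[X]) ^ (2 * i + 1)) * expand ℤ q (X * G) := by
    rw [hE, hsplit, map_mul, ← hX]; ring
  have hc0 : ∀ k, (∑ i ∈ range (r + 1), (X : ℤ[X]) ^ (2 * i)).coeff k
      = if k % 2 = 0 ∧ k < q then 1 else 0 := by
    intro k
    rw [finsetSum_coeff]
    simp_rw [coeff_X_pow]
    split_ifs with h
    · rw [Finset.sum_eq_single (k / 2)]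
      · rw [if_pos (by omega)]
      · intro b _ hb; rw [if_neg (by omega)]
      · intro hb; exfalso; apply hb; rw [Finset.mem_range]; omega
    · apply Finset.sum_eq_zero
      intro i hi
      rw [Finset.mem_range] at hi
      rw [if_neg (by omega)]
  have hc1 : ∀ k, (∑ i ∈ range r, (X : ℤ[X]) ^ (2 * i + 1)).coeff k
      = if k % 2 = 1 ∧ k < q then 1 else 0 := by
    intro k
    rw [finsetSum_coeff]
    simp_rw [coeff_X_pow]
    split_ifs with h
    · rw [Finset.sum_eq_single (k / 2)]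
      · rw [if_pos (by omega)]
      · intro b _ hb; rw [if_neg (by omega)]
      · intro hb; exfalso; apply hb; rw [Finset.mem_range]; omega
    · apply Finset.sum_eq_zero
      intro i hi
      rw [Finset.mem_range] at hi
      rw [if_neg (by omega)]
  rw [hre, coeff_add, coeff_mul_expand hq.pos, coeff_mul_expand hq.pos, hc0, hc1]
  · have hlt := Nat.mod_lt m hq.pos
    rcases Nat.mod_two_eq_zero_or_one (m % q) with h2 | h2
    · rw [if_pos ⟨h2, hlt⟩, if_neg (by omega), one_mul, zero_mul, add_zero]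
      exact hG _
    · rw [if_neg (by omega), if_pos ⟨h2, hlt⟩, one_mul, zero_mul, zero_add]
      rcases Nat.eq_zero_or_pos (m / q) with h3 | h3
      · rw [h3]; simp
      · obtain ⟨c, hc⟩ := Nat.exists_eq_succ_of_ne_zero h3.ne'
        rw [hc, Nat.succ_eq_add_one, coeff_X_mul]
        exact hG _
  · intro k hk; rw [hc1, if_neg (by omega)]
  · intro k hk; rw [hc0, if_neg (by omega)]

/-- The products of `Φ_{q^i}` and `Φ_{2 q^i}` with `1 ≤ i ≤ b` are flat. -/
theorem flat_prod {q : ℕ} (hq : q.Prime) (hq2 : q ≠ 2) (b : ℕ) :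
    ∀ ε δ : ℕ → Prop, ∀ [DecidablePred ε] [DecidablePred δ],
      Flat (∏ i ∈ range b, ((if ε i then cyclotomic (q ^ (i + 1)) ℤ else 1) *
        (if δ i then cyclotomic (q ^ (i + 1) * 2) ℤ else 1))) := by
  induction b with
  | zero =>
    intro ε δ _ _ k
    rw [Finset.prod_range_zero, coeff_one]
    split_ifs <;> simp
  | succ b ih =>
    intro ε δ _ _
    have hG := ih (fun i => ε (i + 1)) (fun i => δ (i + 1))
    rw [Finset.prod_range_succ']
    have hexp : (∏ i ∈ range b, ((if ε (i + 1) then cyclotomic (q ^ (i + 1 + 1)) ℤ else 1) *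
        (if δ (i + 1) then cyclotomic (q ^ (i + 1 + 1) * 2) ℤ else 1)))
        = expand ℤ q (∏ i ∈ range b, ((if ε (i + 1) then cyclotomic (q ^ (i + 1)) ℤ else 1) *
        (if δ (i + 1) then cyclotomic (q ^ (i + 1) * 2) ℤ else 1))) := by
      rw [map_prod]
      apply Finset.prod_congr rfl
      intro i _
      have hd : q ∣ q ^ (i + 1) := dvd_pow_self q (by omega)
      have e1 : expand ℤ q (cyclotomic (q ^ (i + 1)) ℤ) = cyclotomic (q ^ (i + 1 + 1)) ℤ := by
        rw [cyclotomic_expand_eq_cyclotomic hq hd ℤ, ← pow_succ]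
      have e2 : expand ℤ q (cyclotomic (q ^ (i + 1) * 2) ℤ)
          = cyclotomic (q ^ (i + 1 + 1) * 2) ℤ := by
        rw [cyclotomic_expand_eq_cyclotomic hq (hd.mul_right 2) ℤ]
        congr 1; ring
      rw [map_mul]
      congr 1
      · split_ifs
        · rw [e1]
        · rw [map_one]
      · split_ifs
        · rw [e2]
        · rw [map_one]
    rw [hexp, mul_comm]
    simp only [zero_add, pow_one]
    split_ifs
    · exact flat_phi_both hq hq2 hG
    · rw [mul_one]; exact flat_phi_q hq hG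
    · rw [one_mul]; exact flat_phi_2q hq hq2 hG
    · rw [one_mul, one_mul]
      intro m
      rw [coeff_expand hq.pos]
      split_ifs
      · exact hG _
      · simp

theorem X_pow_sub_one_prod {q : ℕ} (hq : q.Prime) (hq2 : q ≠ 2) (b : ℕ) :
    (X : ℤ[X]) ^ (2 * q ^ b) - 1
      = ∏ i ∈ range (b + 1), (cyclotomic (q ^ i) ℤ * cyclotomic (q ^ i * 2) ℤ) := by
  have := Fact.mk hq
  have h1 : ∀ b : ℕ, (X : ℤ[X]) ^ (q ^ b) - 1 = ∏ i ∈ range (b + 1), cyclotomic (q ^ i) ℤ := by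
    intro b
    induction b with
    | zero => simp
    | succ b ih =>
      rw [Finset.prod_range_succ, ← ih, mul_comm]
      exact (cyclotomic_prime_pow_mul_X_pow_sub_one ℤ q b).symm
  have h2 : (X : ℤ[X]) ^ (2 * q ^ b) - 1 = expand ℤ 2 ((X : ℤ[X]) ^ (q ^ b) - 1) := by
    rw [map_sub, map_pow, expand_X, map_one, pow_mul]
  rw [h2, h1, map_prod]
  apply Finset.prod_congr rfl
  intro i _
  have hodd : Odd (q ^ i) := (hq.odd_of_ne_two hq2).pow
  rw [two_expand hodd.not_two_dvd_nat, mul_comm]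

theorem height_le_two {q : ℕ} (hq : q.Prime) (hq2 : q ≠ 2) (b : ℕ) {f : ℤ[X]}
    (hf : f ∣ X ^ (2 * q ^ b) - 1) : height f ≤ 2 := by
  classical
  let P : ℕ × Bool → ℤ[X] := fun x => if x.2 then cyclotomic (q ^ x.1 * 2) ℤ else cyclotomic (q ^ x.1) ℤ
  have hprod : (X : ℤ[X]) ^ (2 * q ^ b) - 1 = ∏ x ∈ range (b + 1) ×ˢ (Finset.univ : Finset Bool), P x := by
    rw [X_pow_sub_one_prod hq hq2, Finset.prod_product]
    apply Finset.prod_congr rfl
    intro i _
    rw [Fintype.prod_bool, mul_comm]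
    simp [P]
  rw [hprod] at hf
  have hP : ∀ x ∈ range (b + 1) ×ˢ (Finset.univ : Finset Bool), Prime (P x) := by
    rintro ⟨i, c⟩ _
    have hpos : 0 < q ^ i := pow_pos hq.pos i
    cases c
    · simpa [P] using cyclotomic_prime' hpos
    · simpa [P] using cyclotomic_prime' (n := q ^ i * 2) (by omega)
  obtain ⟨t, ht, hft⟩ := dvd_prod_primes P _ hP f hf
  rw [height_associated hft]
  have hre : ∏ x ∈ t, P x = (∏ i ∈ range b, ((if (i + 1, false) ∈ t then cyclotomic (q ^ (i + 1)) ℤ else 1) *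
        (if (i + 1, true) ∈ t then cyclotomic (q ^ (i + 1) * 2) ℤ else 1))) *
        ((if (0, false) ∈ t then (X - 1 : ℤ[X]) else 1) * (if (0, true) ∈ t then (X + 1 : ℤ[X]) else 1)) := by
    have h1 : ∏ x ∈ t, P x = ∏ x ∈ range (b + 1) ×ˢ (Finset.univ : Finset Bool), if x ∈ t then P x else 1 := by
      rw [Finset.prod_ite_mem, Finset.inter_eq_right.mpr ht]
    rw [h1, Finset.prod_product, Finset.prod_range_succ']
    congr 1
    · apply Finset.prod_congr rfl
      intro i _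
      rw [Fintype.prod_bool, mul_comm]
      simp [P]
    · rw [Fintype.prod_bool, mul_comm]
      simp [P]
  rw [hre]
  set G := ∏ i ∈ range b, ((if (i + 1, false) ∈ t then cyclotomic (q ^ (i + 1)) ℤ else 1) *
        (if (i + 1, true) ∈ t then cyclotomic (q ^ (i + 1) * 2) ℤ else 1)) with hGdef
  have hG : Flat G := flat_prod hq hq2 b (fun i => (i + 1, false) ∈ t) (fun i => (i + 1, true) ∈ t)
  rw [height_le_iff]
  intro k
  have key : |(G * ((if (0, false) ∈ t then (X - 1 : ℤ[X]) else 1) *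
      (if (0, true) ∈ t then (X + 1 : ℤ[X]) else 1))).coeff k| ≤ 2 := by
    have hG' : ∀ j, |(X * G).coeff j| ≤ 1 := by
      intro j
      cases j with
      | zero => simp
      | succ j => rw [coeff_X_mul]; exact hG j
    have hG'' : ∀ j, |(X * (X * G)).coeff j| ≤ 1 := by
      intro j
      cases j with
      | zero => simp
      | succ j => rw [coeff_X_mul]; exact hG' j
    have hk := hG k
    have hk' := hG' k
    have hk'' := hG'' k
    rw [abs_le] at hk hk' hk'' ⊢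
    split_ifs
    · rw [show G * ((X - 1) * (X + 1)) = X * (X * G) - G by ring, coeff_sub]
      constructor <;> linarith [hk.1, hk.2, hk''.1, hk''.2]
    · rw [show G * ((X - 1) * 1) = X * G - G by ring, coeff_sub]
      constructor <;> linarith [hk.1, hk.2, hk'.1, hk'.2]
    · rw [show G * (1 * (X + 1)) = X * G + G by ring, coeff_add]
      constructor <;> linarith [hk.1, hk.2, hk'.1, hk'.2]
    · rw [mul_one, mul_one]
      constructor <;> linarith [hk.1, hk.2]
  rw [Int.abs_eq_natAbs] at key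
  exact_mod_cast key

/-- `B(2 q^b) = 2`. -/
theorem B_two_mul_pow {q : ℕ} (hq : q.Prime) (hq2 : q ≠ 2) {b : ℕ} (hb : 1 ≤ b) :
    B (2 * q ^ b) = 2 := by
  apply le_antisymm
  · exact B_le fun f hf => height_le_two hq hq2 b hf
  · have hpos : 0 < 2 * q ^ b := by have := pow_pos hq.pos b; omega
    have h3 : 3 ≤ q ^ b := by
      have h1 : 3 ≤ q := by
        have := hq.two_le
        omega
      calc 3 ≤ q := h1
        _ = q ^ 1 := (pow_one q).symm
        _ ≤ q ^ b := Nat.pow_le_pow_right hq.pos hb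
    have hodd : Odd (q ^ b) := (hq.odd_of_ne_two hq2).pow
    let f : ℤ[X] := (X + 1) * ∑ i ∈ range (q ^ b), X ^ i
    have hf : f ∣ X ^ (2 * q ^ b) - 1 := by
      have e : (X : ℤ[X]) ^ (2 * q ^ b) - 1 = (X ^ (q ^ b) + 1) * (X ^ (q ^ b) - 1) := by ring
      rw [e]
      apply mul_dvd_mul
      · simpa using hodd.add_dvd_pow_add_pow (X : ℤ[X]) 1
      · exact ⟨X - 1, (geom_sum_mul (X : ℤ[X]) (q ^ b)).symm⟩
    refine le_trans ?_ (le_B hpos hf)
    have hc : f.coeff 1 = 2 := by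
      have : f = X * (∑ i ∈ range (q ^ b), X ^ i) + ∑ i ∈ range (q ^ b), X ^ i := by
        simp only [f]; ring
      rw [this, coeff_add, show (1 : ℕ) = 0 + 1 from rfl, coeff_X_mul, geomCoeff, geomCoeff,
        if_pos (by omega), if_pos (by omega)]
      norm_num
    calc 2 = (f.coeff 1).natAbs := by rw [hc]; rfl
      _ ≤ height f := le_height f 1

end Pool.Agent.N944.BH
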